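import Mathlib

namespace Pool.Agent.H.MP_eb4d96_pr

open Finset

variable {V : Type} [DecidableEq V]

noncomputable def D (S : Finset V) (f : Finset V → ℂ) (I : Finset V) : ℂ :=
  ∑ T ∈ S.powerset, (-1) ^ (S \ T).card * f (I \ S ∪ T)

lemma D_empty (f : Finset V → ℂ) : D ∅ f = f := by
  ext I; simp [D]

lemma D_insert {x : V} {S : Finset V} (h : x ∉ S) (f : Finset V → ℂ) (I : Finset V) :
    D (insert x S) f I = D S f (insert x I) - D S f (I.erase x) := by
  unfold D
  rw [sum_powerset_insert h, add_comm, sub_eq_add_neg, ← sum_neg_distrib]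
  congr 1
  · refine sum_congr rfl fun T hT => ?_
    have hT := mem_powerset.mp hT
    have e1 : insert x S \ insert x T = S \ T := by ext y; simp; grind
    have e2 : I \ insert x S ∪ insert x T = insert x I \ S ∪ T := by ext y; simp; grind
    rw [e1, e2]
  · refine sum_congr rfl fun T hT => ?_
    have hT := mem_powerset.mp hT
    have e1 : insert x S \ T = insert x (S \ T) := by ext y; simp; grind
    have e2 : I \ insert x S ∪ T = I.erase x \ S ∪ T := by ext y; simp; grind
    rw [e1, e2, card_insert_of_notMem (by simp [h]), pow_succ]; ring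

lemma D_comp {x : V} {S : Finset V} (h : x ∉ S) (f : Finset V → ℂ) (I : Finset V) :
    D S (fun J => f (insert x J)) I = D S f (insert x I) ∧
    D S (fun J => f (J.erase x)) I = D S f (I.erase x) := by
  unfold D
  constructor <;> refine sum_congr rfl fun T hT => ?_ <;> have hT := mem_powerset.mp hT <;>
    refine congrArg (fun J => _ * f J) ?_ <;> ext y <;> simp <;> grind

lemma D_add (S : Finset V) (f g : Finset V → ℂ) (c : ℂ) (I : Finset V) :
    D S (fun J => f J + c * g J) I = D S f I + c * D S g I := by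
  unfold D
  rw [mul_sum, ← sum_add_distrib]
  exact sum_congr rfl fun T _ => by ring

lemma D_zero {x : V} {S : Finset V} (h : x ∈ S) (f : Finset V → ℂ)
    (hf : ∀ J, f (insert x J) = f (J.erase x)) (I : Finset V) : D S f I = 0 := by
  rw [← insert_erase h, D_insert (notMem_erase x S), ← (D_comp (notMem_erase x S) f I).1,
    ← (D_comp (notMem_erase x S) f I).2]
  simp [hf]

noncomputable def χ (N I : Finset V) : ℂ := if Disjoint N I then 1 else 0

lemma D_chi (N : Finset V) (g : Finset V → ℂ) (S : Finset V) : ∀ I,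
    D S (fun J => χ N J * g J) I =
      (-1) ^ (S ∩ N).card * χ N (I \ S) * D (S \ N) g (I \ (S ∩ N)) := by
  induction S using Finset.induction_on with
  | empty => intro I; simp [D_empty]
  | insert y S hy ih =>
    intro I
    rw [D_insert hy, ih, ih]
    by_cases hN : y ∈ N
    · have e0 : χ N (insert y I \ S) = 0 := by
        unfold χ; rw [if_neg]; exact fun h => disjoint_left.mp h hN (by simp [hy])
      have e1 : insert y S ∩ N = insert y (S ∩ N) := by ext z; simp; grind
      have e2 : I.erase y \ S = I \ insert y S := by ext z; simp; grind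
      have e3 : insert y S \ N = S \ N := by ext z; simp; grind
      have e4 : I.erase y \ (S ∩ N) = I \ insert y (S ∩ N) := by ext z; simp; grind
      rw [e0, e1, e2, e3, e4, card_insert_of_notMem (by simp [hy]), pow_succ]; ring
    · have e0 : χ N (insert y I \ S) = χ N (I \ insert y S) := by
        unfold χ; congr 1; simp only [disjoint_left, eq_iff_iff]; simp; grind
      have e1 : insert y S ∩ N = S ∩ N := by ext z; simp; grind
      have e2 : I.erase y \ S = I \ insert y S := by ext z; simp; grind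
      have e3 : insert y S \ N = insert y (S \ N) := by ext z; simp; grind
      have e4 : I.erase y \ (S ∩ N) = (I \ (S ∩ N)).erase y := by ext z; simp; grind
      have e5 : insert y I \ (S ∩ N) = insert y (I \ (S ∩ N)) := by ext z; simp; grind
      rw [e0, e1, e2, e3, e4, e5, D_insert (by simp [hy])]; ring

noncomputable def K (ρ : ℂ) (N : Finset V) (x : V) (f : Finset V → ℂ) (I : Finset V) : ℂ :=
  f (I.erase x) + ρ * (χ N I * (f (insert x I) + -1 * f (I.erase x)))

variable [Fintype V]

lemma K_in (ρ : ℂ) {N S : Finset V} {x : V} (hx : x ∉ N) (h : x ∈ S) (f : Finset V → ℂ) :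
    ‖D S (K ρ N x f)‖ = 0 := by
  rw [norm_eq_zero]
  ext I
  refine D_zero h _ (fun J => ?_) I
  have : χ N (insert x J) = χ N (J.erase x) := by
    unfold χ; congr 1; simp only [disjoint_left, eq_iff_iff]; simp; grind
  have e : insert x (J.erase x) = insert x J := by ext z; simp; grind
  simp [K, this, erase_insert_eq_erase, e]

lemma K_out (ρ : ℂ) {r : ℝ} (h0 : 0 ≤ r) (h1 : r ≤ 1) (N : Finset V) {S : Finset V} {x : V}
    (h : x ∉ S) (f : Finset V → ℂ) : ‖D S (K ρ N x f)‖ ≤ ‖D S f‖ +
      (if S ∩ N = ∅ then ‖ρ - r‖ else ‖ρ‖) * ‖D (insert x (S \ N)) f‖ := by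
  refine (pi_norm_le_iff_of_nonneg (by positivity)).mpr fun I => ?_
  have h' : x ∉ S \ N := by simp [h]
  have hc : ‖χ N (I \ S)‖ ≤ 1 := by unfold χ; split_ifs <;> simp
  have e : D S (K ρ N x f) I = D S f (I.erase x) + ρ * ((-1) ^ (S ∩ N).card * χ N (I \ S) *
      D (insert x (S \ N)) f (I \ (S ∩ N))) := by
    unfold K
    rw [D_add, D_chi, D_add, (D_comp h f I).2, (D_comp h' f _).1, (D_comp h' f _).2, D_insert h']
    ring
  rw [e]
  have b := norm_le_pi_norm (D S f)
  have b' := norm_le_pi_norm (D (insert x (S \ N)) f) (I \ (S ∩ N))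
  split_ifs with hS
  · have e1 : S \ N = S := by
      ext z; have := congrArg (z ∈ ·) hS; simp at this ⊢; grind
    rw [hS, e1] at *
    simp only [card_empty, pow_zero, one_mul, sdiff_empty] at *
    unfold χ
    split_ifs
    · have e2 : D S f (I.erase x) + ρ * (1 * D (insert x S) f I) = ((1 - r : ℝ) * D S f (I.erase x) +
          r * D S f (insert x I)) + (ρ - r) * D (insert x S) f I := by
        rw [D_insert h]; push_cast; ring
      rw [e2]
      refine (norm_add_le _ _).trans (add_le_add ((norm_add_le _ _).trans ?_) ?_)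
      · rw [norm_mul, norm_mul, Complex.norm_real, Complex.norm_real, Real.norm_of_nonneg h0,
          Real.norm_of_nonneg (sub_nonneg.mpr h1)]
        nlinarith [b (I.erase x), b (insert x I)]
      · rw [norm_mul]; gcongr; exact norm_le_pi_norm _ I
    · simp only [zero_mul, mul_zero, add_zero]
      exact (b _).trans (le_add_of_nonneg_right (by positivity))
  · refine (norm_add_le _ _).trans (add_le_add (b _) ?_)
    rw [norm_mul, norm_mul, norm_mul, norm_pow, norm_neg, norm_one, one_pow, one_mul]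
    gcongr
    nlinarith [norm_nonneg (D (insert x (S \ N)) f (I \ (S ∩ N))), norm_nonneg (χ N (I \ S))]

noncomputable def M (a : ℝ) (f : Finset V → ℂ) : ℝ :=
  ∑ S : Finset V, if S = ∅ then 0 else a ^ S.card * ‖D S f‖

lemma M_K (ρ : ℂ) {r a : ℝ} (h0 : 0 ≤ r) (h1 : r ≤ 1) (ha : 0 < a) {N : Finset V} {x : V}
    (hx : x ∉ N) (f : Finset V → ℂ) : M a (K ρ N x f) ≤
      ∑ S : Finset V, (if x ∈ S then (‖ρ - r‖ + ‖ρ‖ * ((1 + a) ^ N.card - 1)) / a else
        if S = ∅ then 0 else 1) * (a ^ S.card * ‖D S f‖) := by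
  let h : Finset V × Finset V → ℝ := fun q => a ^ q.2.card *
    (if q.2 = ∅ then ‖ρ - r‖ else ‖ρ‖) / a * (a ^ q.1.card * ‖D q.1 f‖)
  let φ : Finset V → Finset V × Finset V := fun S => (insert x (S \ N), S ∩ N)
  have s1 : M a (K ρ N x f) ≤ ∑ S with x ∉ S,
      ((if S = ∅ then 0 else 1) * (a ^ S.card * ‖D S f‖) + h (φ S)) := by
    rw [sum_filter]
    refine sum_le_sum fun S _ => ?_
    by_cases hS : x ∈ S
    · simp [hS, K_in ρ hx hS]
    · have : h (φ S) = a ^ S.card * ((if S ∩ N = ∅ then ‖ρ - r‖ else ‖ρ‖) *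
          ‖D (insert x (S \ N)) f‖) := by
        simp only [h, φ]
        rw [card_insert_of_notMem (by simp [hS]), ← card_sdiff_add_card_inter S N, pow_succ, pow_add]
        field_simp
      rw [if_pos hS, this]
      by_cases h2 : S = ∅
      · rw [if_pos h2, if_pos h2]; positivity
      · rw [if_neg h2, if_neg h2, one_mul, ← mul_add]
        gcongr
        exact K_out ρ h0 h1 N hS f
  have s2 : ∑ S with x ∉ S, h (φ S) ≤ ∑ q ∈ ({S | x ∈ S} : Finset (Finset V)) ×ˢ N.powerset, h q := by
    rw [← sum_image (g := φ)]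
    · refine sum_le_sum_of_subset_of_nonneg (fun q hq => ?_) fun q _ _ => by
        simp only [h]; positivity
      obtain ⟨S, -, rfl⟩ := mem_image.mp hq
      simp [φ]
    · intro S hS T hT e
      simp only [φ, Prod.mk.injEq] at e
      ext z
      have e1 := congrArg (z ∈ ·) e.1
      have e2 := congrArg (z ∈ ·) e.2
      simp at e1 e2 hS hT
      grind
  have s3 : ∑ U ∈ N.powerset, a ^ U.card * (if U = ∅ then ‖ρ - r‖ else ‖ρ‖) =
      ‖ρ - r‖ + ‖ρ‖ * ((1 + a) ^ N.card - 1) := by
    have : ∀ U ∈ N.powerset, a ^ U.card * (if U = ∅ then ‖ρ - r‖ else ‖ρ‖) =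
        ‖ρ‖ * ∏ _i ∈ U, a + if U = ∅ then ‖ρ - r‖ - ‖ρ‖ else 0 := fun U _ => by
      split_ifs with h <;> simp [*, mul_comm]
    rw [sum_congr rfl this, sum_add_distrib, ← mul_sum, ← prod_one_add, sum_ite_eq']
    simp; ring
  rw [sum_add_distrib] at s1
  refine s1.trans ((add_le_add_right s2 _).trans (le_of_eq ?_))
  rw [sum_product, ← sum_filter_add_sum_filter_not univ (fun S => x ∈ S), add_comm]
  congr 1
  · refine sum_congr rfl fun S hS => ?_
    rw [if_pos (by simpa using hS)]
    simp only [h]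
    rw [← sum_mul, ← sum_div, s3]
  · exact sum_congr rfl fun S hS => by rw [if_neg (show x ∉ S by simpa using hS)]

noncomputable def Q (ρ : ℂ) (N : V → Finset V) (f : Finset V → ℂ) (I : Finset V) : ℂ :=
  (∑ x, K ρ (N x) x f I) / Fintype.card V

lemma M_Q [Nonempty V] (ρ : ℂ) {r a θ : ℝ} (h0 : 0 ≤ r) (h1 : r ≤ 1) (ha : 0 < a)
    {N : V → Finset V} (hx : ∀ x, x ∉ N x) (hθ : θ ≤ 1)
    (h : ∀ x, (‖ρ - r‖ + ‖ρ‖ * ((1 + a) ^ (N x).card - 1)) / a ≤ θ) (f : Finset V → ℂ) :
    M a (Q ρ N f) ≤ (1 - (1 - θ) / Fintype.card V) * M a f := by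
  have hn : (0 : ℝ) < Fintype.card V := by exact_mod_cast Fintype.card_pos
  have s1 : ∀ S, ‖D S (Q ρ N f)‖ ≤ (∑ x, ‖D S (K ρ (N x) x f)‖) / Fintype.card V := fun S => by
    refine (pi_norm_le_iff_of_nonneg (by positivity)).mpr fun I => ?_
    have : D S (Q ρ N f) I = (∑ x, D S (K ρ (N x) x f) I) / Fintype.card V := by
      simp only [D, Q]
      rw [sum_comm, sum_div]
      exact sum_congr rfl fun T _ => by rw [← mul_sum, mul_div_assoc]
    rw [this, norm_div, Complex.norm_natCast]
    gcongr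
    exact norm_sum_le_of_le _ fun x _ => norm_le_pi_norm _ I
  have s2 : M a (Q ρ N f) ≤ (∑ x, M a (K ρ (N x) x f)) / Fintype.card V := by
    unfold M
    rw [sum_comm, sum_div]
    refine sum_le_sum fun S _ => ?_
    split_ifs
    · simp
    · rw [← mul_sum, mul_div_assoc]; gcongr; exact s1 S
  refine s2.trans ?_
  rw [div_le_iff₀ hn]
  refine (sum_le_sum fun x _ => M_K ρ h0 h1 ha (hx x) f).trans ?_
  unfold M
  rw [sum_comm, mul_sum, sum_mul]
  refine sum_le_sum fun S _ => ?_
  rw [← sum_mul]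
  split_ifs with hS
  · simp [hS]
  · have : ∑ x, (if x ∈ S then (‖ρ - r‖ + ‖ρ‖ * ((1 + a) ^ (N x).card - 1)) / a else 1) ≤
        ∑ x, (1 - if x ∈ S then 1 - θ else 0) :=
      sum_le_sum fun x _ => by split_ifs <;> simp [h x]
    rw [sum_sub_distrib, sum_ite_mem, univ_inter, sum_const, sum_const, card_univ] at this
    have h2 : (1 : ℝ) ≤ S.card := by exact_mod_cast card_pos.mpr (nonempty_iff_ne_empty.mpr hS)
    simp only [nsmul_eq_mul, mul_one] at this
    rw [mul_right_comm]
    gcongr
    have : (1 - (1 - θ) / Fintype.card V) * Fintype.card V = Fintype.card V - (1 - θ) := by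
      field_simp
    nlinarith

lemma decay [Nonempty V] (ρ : ℂ) {r a θ : ℝ} (h0 : 0 ≤ r) (h1 : r ≤ 1) (ha : 0 < a)
    {N : V → Finset V} (hx : ∀ x, x ∉ N x) (hθ : θ < 1) (hθ0 : 0 ≤ θ)
    (h : ∀ x, (‖ρ - r‖ + ‖ρ‖ * ((1 + a) ^ (N x).card - 1)) / a ≤ θ) (f : Finset V → ℂ)
    (x : V) (I : Finset V) : Filter.Tendsto
      (fun k => (Q ρ N)^[k] f (insert x I) - (Q ρ N)^[k] f (I.erase x)) Filter.atTop (nhds 0) := by
  have hn : (1 : ℝ) ≤ Fintype.card V := by exact_mod_cast Fintype.card_pos
  obtain ⟨κ, hκ⟩ : ∃ κ, κ = 1 - (1 - θ) / Fintype.card V := ⟨_, rfl⟩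
  have k0 : 0 ≤ κ := by
    rw [hκ, sub_nonneg, div_le_one (by positivity)]; linarith
  have k1 : κ < 1 := by
    have : 0 < (1 - θ) / Fintype.card V := div_pos (by linarith) (by linarith)
    linarith
  have s : ∀ k, M a ((Q ρ N)^[k] f) ≤ κ ^ k * M a f := fun k => by
    induction k with
    | zero => simp
    | succ k ih =>
      rw [Function.iterate_succ_apply', pow_succ', mul_assoc]
      exact (M_Q ρ h0 h1 ha hx hθ.le h _).trans (hκ ▸ mul_le_mul_of_nonneg_left ih (hκ ▸ k0))
  have t : ∀ g : Finset V → ℂ, ‖g (insert x I) - g (I.erase x)‖ ≤ M a g / a := fun g => by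
    have := single_le_sum (f := fun S : Finset V => if S = ∅ then 0 else a ^ S.card * ‖D S g‖)
      (fun S _ => by positivity) (mem_univ {x})
    have e := D_insert (notMem_empty x) g I
    have b := norm_le_pi_norm (D {x} g) I
    simp [D_empty] at this e
    rw [le_div_iff₀ ha, ← e]
    unfold M
    nlinarith
  rw [tendsto_zero_iff_norm_tendsto_zero]
  refine squeeze_zero (fun _ => norm_nonneg _) (fun k => (t _).trans
    (div_le_div_of_nonneg_right (s k) ha.le)) ?_
  simpa using ((tendsto_pow_atTop_nhds_zero_of_lt_one k0 k1).mul_const (M a f)).div_const a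

end Pool.Agent.H.MP_eb4d96_pr
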